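import Pool.Agent.ISB.StmtsA

/-!
# Row SPN of squad ISB: the derived series is spanned by elements of `R`
-/

set_option autoImplicit false

namespace Pool.Agent.ISB.H94

open scoped Classical
open Pool.Agent.ISB

theorem spn (hCAL : CalStmt) : SpnStmt := by
  intro F L _ _ _ R hR s
  have hcal := (hCAL F L).2.2.2.2.1
  induction s with
  | zero =>
    apply le_antisymm
    · show Submodule.span F R ≤ _
      refine Submodule.span_mono ?_
      intro x hx
      exact ⟨hx, Submodule.subset_span hx⟩
    · rw [Submodule.span_le]
      rintro x ⟨_, hx⟩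
      exact hx
  | succ s ih =>
    apply le_antisymm
    · show br (dr (Submodule.span F R) s) (dr (Submodule.span F R) s) ≤ _
      have e : br (dr (Submodule.span F R) s) (dr (Submodule.span F R) s)
          = br (Submodule.span F {x | x ∈ R ∧ x ∈ dr (Submodule.span F R) s})
            (Submodule.span F {x | x ∈ R ∧ x ∈ dr (Submodule.span F R) s}) := by
        rw [← ih]
      rw [e, hcal, Submodule.span_le]
      rintro z ⟨x, hx, y, hy, rfl⟩
      apply Submodule.subset_span
      refine ⟨hR x hx.1 y hy.1, ?_⟩
      show ⁅x, y⁆ ∈ br (dr (Submodule.span F R) s) (dr (Submodule.span F R) s)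
      exact Submodule.subset_span ⟨x, hx.2, y, hy.2, rfl⟩
    · rw [Submodule.span_le]
      rintro x ⟨_, hx⟩
      exact hx

end Pool.Agent.ISB.H94
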